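import Pool.Agent.W17.NF.Stm

/-!
# abc over number fields: `k`-th roots modulo an ideal
-/

namespace Pool.Agent.W368.NFRoot

open NumberField Finset IsDedekindDomain UniqueFactorizationMonoid Pool.Agent.W17.NF

set_option linter.unusedSectionVars false

variable {K : Type} [Field K] [NumberField K]

/-- bound for the number of `k`-th roots of unity modulo `f` -/
def RB (k : ℕ) (f : Ideal (𝓞 K)) (B : ℝ) : Prop :=
  ∀ P : Finset (𝓞 K ⧸ f), (∀ x ∈ P, x ^ k = 1) → (P.card : ℝ) ≤ B

theorem RB.mono {k : ℕ} {f : Ideal (𝓞 K)} {A B : ℝ} (h : RB k f A) (hAB : A ≤ B) : RB k f B :=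
  fun P hP => (h P hP).trans hAB

theorem RB_mul {k : ℕ} {f g : Ideal (𝓞 K)} {A B : ℝ} (hfg : IsCoprime f g) (hf : RB k f A)
    (hg : RB k g B) : RB k (f * g) (A * B) := by
  classical
  intro P hP
  set e := Ideal.quotientMulEquivQuotientProd f g hfg with he
  have h1 : (P.image e) ⊆ ((P.image e).image Prod.fst) ×ˢ ((P.image e).image Prod.snd) := by
    intro x hx
    rw [mem_product]
    exact ⟨mem_image_of_mem _ hx, mem_image_of_mem _ hx⟩
  have h2 : (P.image e).card = P.card := card_image_of_injective _ e.injective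
  have h3 := card_le_card h1
  rw [h2, card_product] at h3
  have h4 : ∀ x ∈ P.image e, x ^ k = 1 := by
    intro x hx
    obtain ⟨y, hy, rfl⟩ := mem_image.1 hx
    rw [← map_pow, hP y hy, map_one]
  have h5 : ((((P.image e).image Prod.fst).card : ℕ) : ℝ) ≤ A := by
    apply hf
    intro x hx
    obtain ⟨y, hy, rfl⟩ := mem_image.1 hx
    exact congrArg Prod.fst (h4 y hy)
  have h6 : ((((P.image e).image Prod.snd).card : ℕ) : ℝ) ≤ B := by
    apply hg
    intro x hx
    obtain ⟨y, hy, rfl⟩ := mem_image.1 hx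
    exact congrArg Prod.snd (h4 y hy)
  have h7 : (P.card : ℝ) ≤ (((P.image e).image Prod.fst).card : ℝ) *
      (((P.image e).image Prod.snd).card : ℝ) := by exact_mod_cast h3
  exact h7.trans (mul_le_mul h5 h6 (Nat.cast_nonneg _) ((Nat.cast_nonneg _).trans h5))

theorem RB_top {k : ℕ} : RB k (⊤ : Ideal (𝓞 K)) 1 := by
  intro P _
  have : Subsingleton (𝓞 K ⧸ (⊤ : Ideal (𝓞 K))) := Ideal.Quotient.subsingleton_iff.2 rfl
  have h := Finset.card_le_one_of_subsingleton P
  exact_mod_cast h

theorem mem_pow_sub {p : HeightOneSpectrum (𝓞 K)} {t c : 𝓞 K} {i w : ℕ}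
    (h : t * c ∈ p.asIdeal ^ i) (hc : c ∉ p.asIdeal ^ (w + 1)) : t ∈ p.asIdeal ^ (i - w) := by
  by_cases ht : t = 0
  · rw [ht]
    exact zero_mem _
  have hc0 : c ≠ 0 := by
    rintro rfl
    exact hc (zero_mem _)
  have hvt : p.intValuation t ≠ 0 := p.intValuation_ne_zero t ht
  have hvc : p.intValuation c ≠ 0 := p.intValuation_ne_zero c hc0
  rw [← HeightOneSpectrum.intValuation_le_pow_iff_mem] at h hc ⊢
  rw [map_mul, ← WithZero.exp_log hvt, ← WithZero.exp_log hvc, ← WithZero.exp_add,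
    WithZero.exp_le_exp] at h
  rw [← WithZero.exp_log hvc, WithZero.exp_le_exp] at hc
  rw [← WithZero.exp_log hvt, WithZero.exp_le_exp]
  have h1 : p.intValuation t ≤ 1 := p.intValuation_le_one t
  rw [← WithZero.exp_log hvt, ← WithZero.exp_zero, WithZero.exp_le_exp] at h1
  push_cast at hc
  omega

theorem card_coset {R S : Type} [CommRing R] [CommRing S] [Finite R] (φ : R →+* S) (T : Finset R)
    (h : ∀ x ∈ T, ∀ y ∈ T, φ x = φ y) : T.card ≤ Nat.card (RingHom.ker φ) := by
  classical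
  rcases T.eq_empty_or_nonempty with h0 | ⟨x0, hx0⟩
  · rw [h0]
    simp
  have hfin : Finite (RingHom.ker φ) := inferInstance
  have : Fintype (RingHom.ker φ) := Fintype.ofFinite _
  rw [Nat.card_eq_fintype_card, ← Finset.card_univ]
  have h1 : (T.attach.image (fun x => (⟨x.1 - x0, by
    rw [RingHom.mem_ker, map_sub, h x.1 x.2 x0 hx0, sub_self]⟩ : RingHom.ker φ))).card =
      T.card := by
    rw [card_image_of_injective, card_attach]
    intro x y hxy
    have := congrArg Subtype.val hxy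
    exact Subtype.ext (sub_left_injective this)
  rw [← h1]
  exact card_le_card (subset_univ _)

theorem card_ker {R S : Type} [CommRing R] [CommRing S] (φ : R →+* S)
    (hφ : Function.Surjective φ) : Nat.card R = Nat.card S * Nat.card (RingHom.ker φ) := by
  have h1 := AddSubgroup.card_eq_card_quotient_mul_card_addSubgroup (RingHom.ker φ).toAddSubgroup
  have h2 : Nat.card (R ⧸ (RingHom.ker φ).toAddSubgroup) = Nat.card S :=
    Nat.card_congr (RingHom.quotientKerEquivOfSurjective hφ).toEquiv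
  rw [h2] at h1
  exact h1

theorem card_quot (I : Ideal (𝓞 K)) : Nat.card (𝓞 K ⧸ I) = Ideal.absNorm I := by
  rw [Ideal.absNorm_apply]
  rfl

theorem prime_pow_bound (p : HeightOneSpectrum (𝓞 K)) {k : ℕ} (hk : 1 ≤ k) {i : ℕ} (hi : 1 ≤ i) :
    RB k (p.asIdeal ^ i) ((k : ℝ) ^ (3 * Module.finrank ℚ K)) := by
  classical
  set d := Module.finrank ℚ K with hd
  have hd1 : 1 ≤ d := Module.finrank_pos
  have hk0 : (k : 𝓞 K) ≠ 0 := by exact_mod_cast (by omega : k ≠ 0)
  have hq : 1 ≤ Ideal.absNorm p.asIdeal := by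
    rw [Nat.one_le_iff_ne_zero, Ne, Ideal.absNorm_eq_zero_iff]
    exact p.ne_bot
  -- the exponent of `p` in `k`
  obtain ⟨w, hw1, hw2⟩ : ∃ w : ℕ, (k : 𝓞 K) ∈ p.asIdeal ^ w ∧ (k : 𝓞 K) ∉ p.asIdeal ^ (w + 1) := by
    have hv : p.intValuation (k : 𝓞 K) ≠ 0 := p.intValuation_ne_zero _ hk0
    have h1 : p.intValuation (k : 𝓞 K) ≤ 1 := p.intValuation_le_one _
    rw [← WithZero.exp_log hv, ← WithZero.exp_zero, WithZero.exp_le_exp] at h1
    refine ⟨(-WithZero.log (p.intValuation (k : 𝓞 K))).toNat, ?_, ?_⟩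
    · rw [← HeightOneSpectrum.intValuation_le_pow_iff_mem, ← WithZero.exp_log hv,
        WithZero.exp_le_exp, WithZero.log_exp]
      omega
    · rw [← HeightOneSpectrum.intValuation_le_pow_iff_mem, ← WithZero.exp_log hv,
        WithZero.exp_le_exp, WithZero.log_exp]
      push_cast
      omega
  have hnk : Ideal.absNorm (Ideal.span {(k : 𝓞 K)}) = k ^ d := by
    rw [Ideal.absNorm_span_singleton]
    have : (k : 𝓞 K) = algebraMap ℤ (𝓞 K) (k : ℤ) := by simp
    rw [this, Algebra.norm_algebraMap, Int.natAbs_pow, Int.natAbs_natCast, hd,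
      RingOfIntegers.rank]
  have hpw : Ideal.absNorm p.asIdeal ^ w ≤ k ^ d := by
    rw [← hnk, ← map_pow]
    apply Nat.le_of_dvd
    · rw [hnk]
      positivity
    · apply Ideal.absNorm_dvd_absNorm_of_le
      rwa [Ideal.span_singleton_le_iff_mem]
  have hfinI : ∀ j : ℕ, Finite (𝓞 K ⧸ p.asIdeal ^ j) := fun j =>
    Ideal.finiteQuotientOfFreeOfNeBot _ (pow_ne_zero _ p.ne_bot)
  have hk3 : k ^ d ≤ k ^ (3 * d) := Nat.pow_le_pow_right hk (by omega)
  intro P hP
  have hres : P.card ≤ k ^ (3 * d) := by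
    by_cases hiw : i ≤ w
    · have : Fintype (𝓞 K ⧸ p.asIdeal ^ i) := Fintype.ofFinite _
      calc P.card ≤ Fintype.card (𝓞 K ⧸ p.asIdeal ^ i) := card_le_univ _
        _ = Ideal.absNorm p.asIdeal ^ i := by
          rw [← Nat.card_eq_fintype_card, card_quot, map_pow]
        _ ≤ Ideal.absNorm p.asIdeal ^ w := Nat.pow_le_pow_right hq hiw
        _ ≤ k ^ d := hpw
        _ ≤ _ := hk3
    push Not at hiw
    -- the map to the quotient modulo `p ^ (w + 1)`
    have hle1 : p.asIdeal ^ i ≤ p.asIdeal ^ (w + 1) := Ideal.pow_le_pow_right hiw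
    have hle2 : p.asIdeal ^ i ≤ p.asIdeal ^ (i - w) := Ideal.pow_le_pow_right (by omega)
    set φ := Ideal.Quotient.factor hle1 with hφ
    set ψ := Ideal.Quotient.factor hle2 with hψ
    have hkerψ : Nat.card (RingHom.ker ψ) = Ideal.absNorm p.asIdeal ^ w := by
      have h1 := card_ker ψ (Ideal.Quotient.factor_surjective hle2)
      rw [card_quot, card_quot, map_pow, map_pow] at h1
      have h2 : Ideal.absNorm p.asIdeal ^ i =
          Ideal.absNorm p.asIdeal ^ (i - w) * Ideal.absNorm p.asIdeal ^ w := by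
        rw [← pow_add]
        congr 1
        omega
      rw [h2] at h1
      exact (Nat.eq_of_mul_eq_mul_left (by positivity) h1).symm
    have hfib : ∀ c ∈ P.image φ, (P.filter (fun x => φ x = c)).card ≤
        Ideal.absNorm p.asIdeal ^ w := by
      intro c _
      have := hfinI i
      rw [← hkerψ]
      apply card_coset ψ
      intro x hx y hy
      rw [mem_filter] at hx hy
      have hxk := hP x hx.1
      have hyk := hP y hy.1
      have hxy : φ x = φ y := hx.2.trans hy.2.symm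
      obtain ⟨X, rfl⟩ := Ideal.Quotient.mk_surjective x
      obtain ⟨Y, rfl⟩ := Ideal.Quotient.mk_surjective y
      rw [hφ, Ideal.Quotient.factor_mk, Ideal.Quotient.factor_mk, Ideal.Quotient.eq] at hxy
      rw [hψ, Ideal.Quotient.factor_mk, Ideal.Quotient.factor_mk, Ideal.Quotient.eq]
      have h1 : X ^ k - Y ^ k ∈ p.asIdeal ^ i := by
        rw [← Ideal.Quotient.eq, map_pow, map_pow, hxk, hyk]
      have hYp : Y ∉ p.asIdeal := by
        intro hY
        have h2 : Y ^ k ∈ p.asIdeal := Ideal.pow_mem_of_mem _ hY _ hk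
        have h3 : Y ^ k - 1 ∈ p.asIdeal ^ i := by
          rw [← Ideal.Quotient.eq, map_pow, hyk, map_one]
        have h4 : Y ^ k - 1 ∈ p.asIdeal := Ideal.pow_le_self (by omega) h3
        have h5 : (1 : 𝓞 K) ∈ p.asIdeal := by
          have := sub_mem h2 h4
          simpa using this
        exact p.isPrime.ne_top ((Ideal.eq_top_iff_one _).2 h5)
      have hYk : Y ^ (k - 1) ∉ p.asIdeal := fun h => hYp (p.isPrime.mem_of_pow_mem _ h)
      have h2 : (∑ j ∈ range k, X ^ j * Y ^ (k - 1 - j)) ∉ p.asIdeal ^ (w + 1) := by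
        intro h3
        have h4 : (∑ j ∈ range k, X ^ j * Y ^ (k - 1 - j)) - (k : 𝓞 K) * Y ^ (k - 1) ∈
            p.asIdeal ^ (w + 1) := by
          rw [← Ideal.Quotient.eq, RingHom.map_geom_sum₂, (Ideal.Quotient.eq.2 hxy),
            geom_sum₂_self, map_mul, map_natCast, map_pow]
        have h5 : (k : 𝓞 K) * Y ^ (k - 1) ∈ p.asIdeal ^ (w + 1) := by
          have := sub_mem h3 h4
          simpa using this
        have h6 := mem_pow_sub (w := 0) h5 (by simpa using hYk)
        exact hw2 h6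
      apply mem_pow_sub (c := ∑ j ∈ range k, X ^ j * Y ^ (k - 1 - j)) _ h2
      rw [mul_comm, (Commute.all X Y).geom_sum₂_mul]
      exact h1
    have h1 : P.card ≤ Ideal.absNorm p.asIdeal ^ w * (P.image φ).card :=
      card_le_mul_card_image P _ hfib
    have h2 : (P.image φ).card ≤ k ^ (2 * d) := by
      rcases Nat.eq_zero_or_pos w with hw0 | hw0
      · -- the quotient is a field
        have hfld : (p.asIdeal ^ (w + 1)).IsPrime := by
          rw [hw0, zero_add, pow_one]
          exact p.isPrime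
        have h3 : P.image φ ⊆ (Polynomial.nthRoots k (1 : 𝓞 K ⧸ p.asIdeal ^ (w + 1))).toFinset := by
          intro z hz
          obtain ⟨x, hx, rfl⟩ := mem_image.1 hz
          rw [Multiset.mem_toFinset, Polynomial.mem_nthRoots (by omega), ← map_pow, hP x hx,
            map_one]
        calc (P.image φ).card ≤ _ := card_le_card h3
          _ ≤ Multiset.card (Polynomial.nthRoots k (1 : 𝓞 K ⧸ p.asIdeal ^ (w + 1))) :=
            Multiset.toFinset_card_le _
          _ ≤ k := Polynomial.card_nthRoots _ _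
          _ = k ^ 1 := (pow_one k).symm
          _ ≤ k ^ (2 * d) := Nat.pow_le_pow_right hk (by omega)
      · have := hfinI (w + 1)
        have : Fintype (𝓞 K ⧸ p.asIdeal ^ (w + 1)) := Fintype.ofFinite _
        calc (P.image φ).card ≤ Fintype.card (𝓞 K ⧸ p.asIdeal ^ (w + 1)) := card_le_univ _
          _ = Ideal.absNorm p.asIdeal ^ (w + 1) := by
            rw [← Nat.card_eq_fintype_card, card_quot, map_pow]
          _ ≤ Ideal.absNorm p.asIdeal ^ (w * 2) := Nat.pow_le_pow_right hq (by omega)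
          _ = (Ideal.absNorm p.asIdeal ^ w) ^ 2 := pow_mul _ _ _
          _ ≤ (k ^ d) ^ 2 := Nat.pow_le_pow_left hpw 2
          _ = k ^ (2 * d) := by rw [← pow_mul, mul_comm]
    calc P.card ≤ _ := h1
      _ ≤ k ^ d * k ^ (2 * d) := Nat.mul_le_mul hpw h2
      _ = k ^ (3 * d) := by
        rw [← pow_add]
        congr 1
        ring
  exact_mod_cast hres

theorem isCoprime_of_isRelPrime {x y : Ideal (𝓞 K)} (h : IsRelPrime x y) : IsCoprime x y := by
  rw [Ideal.isCoprime_iff_sup_eq]
  exact Ideal.isUnit_iff.1 (h (Ideal.dvd_iff_le.2 le_sup_left) (Ideal.dvd_iff_le.2 le_sup_right))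

theorem one_le_norm {f : Ideal (𝓞 K)} (hf : f ≠ 0) : (1 : ℝ) ≤ (Ideal.absNorm f : ℝ) := by
  have : Ideal.absNorm f ≠ 0 := by
    rw [Ne, Ideal.absNorm_eq_zero_iff]
    exact hf
  exact_mod_cast Nat.one_le_iff_ne_zero.2 this

open Classical in
/-- number of prime factors of norm at most `n` -/
noncomputable def sm (n : ℕ) (f : Ideal (𝓞 K)) : ℕ :=
  ((normalizedFactors f).toFinset.filter (fun I => Ideal.absNorm I ≤ n)).card

theorem sm_mul {n : ℕ} {x y : Ideal (𝓞 K)} (hx : x ≠ 0) (hy : y ≠ 0) (h : IsRelPrime x y) :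
    sm n x + sm n y ≤ sm n (x * y) := by
  classical
  unfold sm
  rw [← card_union_of_disjoint]
  · apply card_le_card
    rw [normalizedFactors_mul hx hy, Multiset.toFinset_add, filter_union]
  · apply disjoint_filter_filter
    rw [Finset.disjoint_left]
    intro p hp hp'
    rw [Multiset.mem_toFinset] at hp hp'
    exact (prime_of_normalized_factor p hp).not_isUnit
      (h (dvd_of_mem_normalizedFactors hp) (dvd_of_mem_normalizedFactors hp'))

theorem sm_le {n : ℕ} {f : Ideal (𝓞 K)} :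
    sm n f ≤ ((Ideal.finite_setOfPred_absNorm_le (S := 𝓞 K) n).toFinset).card := by
  classical
  unfold sm
  apply card_le_card
  intro I hI
  rw [mem_filter] at hI
  rw [Set.Finite.mem_toFinset]
  exact hI.2

theorem bound {k n : ℕ} {C ε : ℝ} (hk : 1 ≤ k) (hε : 0 < ε)
    (hC : (k : ℝ) ^ (3 * Module.finrank ℚ K) ≤ C) (hC1 : 1 ≤ C) (hn : C ≤ (n : ℝ) ^ ε)
    (f : Ideal (𝓞 K)) : f ≠ 0 → RB k f (C ^ (sm n f) * (Ideal.absNorm f : ℝ) ^ ε) := by
  classical
  induction f using induction_on_coprime with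
  | h0 => intro h; exact absurd rfl h
  | @h1 x hx =>
    intro h
    have hx' : x = ⊤ := Ideal.isUnit_iff.1 hx
    rw [hx']
    refine RB_top.mono ?_
    exact one_le_mul_of_one_le_of_one_le (one_le_pow₀ hC1)
      (Real.one_le_rpow (one_le_norm (by rw [← hx']; exact h)) hε.le)
  | @hpr p i hp =>
    intro h
    rcases Nat.eq_zero_or_pos i with h0 | h0
    · rw [h0, pow_zero, Ideal.one_eq_top]
      refine RB_top.mono ?_
      exact one_le_mul_of_one_le_of_one_le (one_le_pow₀ hC1)
        (Real.one_le_rpow (one_le_norm (by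
          rw [← Ideal.one_eq_top]; exact one_ne_zero)) hε.le)
    · have hpP : p.IsPrime := Ideal.isPrime_of_prime hp
      have hb := prime_pow_bound (K := K) ⟨p, hpP, hp.ne_zero⟩ hk h0
      refine hb.mono (hC.trans ?_)
      have hN1 : (1 : ℝ) ≤ (Ideal.absNorm (p ^ i) : ℝ) := one_le_norm h
      by_cases hps : Ideal.absNorm p ≤ n
      · have h1 : 1 ≤ sm n (p ^ i) := by
          unfold sm
          rw [Nat.one_le_iff_ne_zero, Ne, card_eq_zero, ← Ne, ← nonempty_iff_ne_empty]
          refine ⟨p, ?_⟩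
          rw [mem_filter, Multiset.mem_toFinset]
          refine ⟨?_, hps⟩
          rw [normalizedFactors_pow, normalizedFactors_irreducible hp.irreducible,
            Multiset.mem_nsmul]
          refine ⟨by omega, ?_⟩
          rw [Multiset.mem_singleton, normalize_eq]
        calc C = C ^ 1 * 1 := by ring
          _ ≤ C ^ (sm n (p ^ i)) * (Ideal.absNorm (p ^ i) : ℝ) ^ ε :=
            mul_le_mul (pow_le_pow_right₀ hC1 h1) (Real.one_le_rpow hN1 hε.le) zero_le_one
              (by positivity)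
      · push Not at hps
        have h1 : C ≤ (Ideal.absNorm (p ^ i) : ℝ) ^ ε := by
          refine hn.trans (Real.rpow_le_rpow (Nat.cast_nonneg _) ?_ hε.le)
          have h2 : n ≤ Ideal.absNorm (p ^ i) := by
            rw [map_pow]
            exact hps.le.trans (Nat.le_self_pow (by omega) _)
          exact_mod_cast h2
        calc C ≤ (Ideal.absNorm (p ^ i) : ℝ) ^ ε := h1
          _ = 1 * (Ideal.absNorm (p ^ i) : ℝ) ^ ε := (one_mul _).symm
          _ ≤ _ := mul_le_mul_of_nonneg_right (one_le_pow₀ hC1) (by positivity)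
  | @hcp x y hxy ihx ihy =>
    intro h
    have hx : x ≠ 0 := left_ne_zero_of_mul h
    have hy : y ≠ 0 := right_ne_zero_of_mul h
    refine (RB_mul (isCoprime_of_isRelPrime hxy) (ihx hx) (ihy hy)).mono ?_
    rw [map_mul, Nat.cast_mul, Real.mul_rpow (Nat.cast_nonneg _) (Nat.cast_nonneg _)]
    have h1 : C ^ sm n x * C ^ sm n y ≤ C ^ sm n (x * y) := by
      rw [← pow_add]
      exact pow_le_pow_right₀ hC1 (sm_mul hx hy hxy)
    calc C ^ sm n x * (Ideal.absNorm x : ℝ) ^ ε * (C ^ sm n y * (Ideal.absNorm y : ℝ) ^ ε)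
        = (C ^ sm n x * C ^ sm n y) * ((Ideal.absNorm x : ℝ) ^ ε * (Ideal.absNorm y : ℝ) ^ ε) := by
          ring
      _ ≤ _ := mul_le_mul_of_nonneg_right h1 (by positivity)

/-- NF-ROOT -/
theorem stmtRoot (K : Type) [Field K] [NumberField K] : StmtRoot K := by
  classical
  intro M ε hε
  set d := Module.finrank ℚ K with hd
  set C : ℝ := ((max M 1 : ℕ) : ℝ) ^ (3 * d) with hC
  have hC1 : 1 ≤ C := one_le_pow₀ (by exact_mod_cast le_max_right M 1)
  obtain ⟨n, hn⟩ : ∃ n : ℕ, C ≤ (n : ℝ) ^ ε := by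
    refine ⟨⌈C ^ (1 / ε)⌉₊, ?_⟩
    calc C = (C ^ (1 / ε)) ^ ε := by
          rw [← Real.rpow_mul (by positivity), one_div, inv_mul_cancel₀ hε.ne', Real.rpow_one]
      _ ≤ _ := Real.rpow_le_rpow (by positivity) (Nat.le_ceil _) hε.le
  refine ⟨C ^ ((Ideal.finite_setOfPred_absNorm_le (S := 𝓞 K) n).toFinset).card, by positivity, ?_⟩
  intro k hk hkM f hf u P hP
  have hkC : (k : ℝ) ^ (3 * Module.finrank ℚ K) ≤ C := by
    refine pow_le_pow_left₀ (Nat.cast_nonneg _) ?_ _
    exact_mod_cast hkM.trans (le_max_left M 1)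
  have hb := bound hk hε hkC hC1 hn f hf
  rcases P.eq_empty_or_nonempty with h0 | ⟨x0, hx0⟩
  · rw [h0, card_empty, Nat.cast_zero]
    positivity
  have h1 : (P.image (fun x => ((x * x0⁻¹ : (𝓞 K ⧸ f)ˣ) : 𝓞 K ⧸ f))).card = P.card := by
    apply card_image_of_injective
    intro x y hxy
    exact mul_right_cancel (Units.ext hxy)
  have h2 := hb (P.image (fun x => ((x * x0⁻¹ : (𝓞 K ⧸ f)ˣ) : 𝓞 K ⧸ f))) (by
    intro z hz
    obtain ⟨x, hx, rfl⟩ := mem_image.1 hz
    rw [← Units.val_pow_eq_pow_val, mul_pow, inv_pow, hP x hx, hP x0 hx0, mul_inv_cancel,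
      Units.val_one])
  rw [h1] at h2
  refine h2.trans (mul_le_mul_of_nonneg_right ?_ (by positivity))
  exact pow_le_pow_right₀ hC1 sm_le

end Pool.Agent.W368.NFRoot
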